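import Pool.Agent.helper16.LW.All
import Pool.Agent.helper86.LV.All

/-!
# A large values theorem for Dirichlet polynomials

Let `D(t) = ∑ a n * n ^ (-it)`, `N < n ≤ 2 N ≤ 2 T`, `|a n| ≤ 1`, `G = ∑ |a n| ^ 2`, and let `W` be a set of
points with distances at least `1` in an interval of length `T` at which `|D(t)| ≥ V`. Then
`|W| ≤ C T ^ ε (N ^ 2 / V ^ 2 + (T ^ (1/2) N ^ 3 + T ^ (6/7) N ^ (18/7) + T N ^ 2) / V ^ 4)`,
and if `V ^ 2 ≥ C T ^ ε N ^ (1/2) G` then `|W| ≤ C T ^ ε (N G / V ^ 2 + T ^ (1/2) N G ^ 2 / V ^ 4)`.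

Sketch of the proof of the first bound. For `N ≤ T ^ (3/5)` it is the mean value theorem for `D ^ 2`.
Otherwise pass to integers `|j| < J`, `J` of size `T`, with Fejer weights `w_j`. Let
`F_j = w_j |D(j)| ^ 2` if `|D(j)| ≤ U` and `F_j = 0` otherwise, `m = ∑ F_j |D(j)| ^ 2`, and let `X = N L`.
The matrix with the entries `F_j ^ (1/2) B(j - k) F_k ^ (1/2)`, `B(u) = ∑ k ^ (-iu)` a smooth sum of length
`X`, is positive and equal to `O + D₀`, where `D₀` comes from the zero frequency of the Poisson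
formula. With the `L` vectors `F_j ^ (1/2) D(j) l ^ (-ij)`, `L < l ≤ 2 L`, one gets
`L m ^ 3 ≤ T ^ ε N ^ 3 (|tr O ^ 3| + |tr O ^ 2 D₀|)` unless `m ≤ C N ^ 2 L U ^ 2`. The key point is that the
weights `F_j` are essentially explicit: `∑ w_k |D(k)| ^ 2 |B(u - k)| ^ 2 ≤ T ^ ε X T N` for all `u` (a divisor
problem for `n m - n' m'`), which bounds `tr O ^ 2 D₀`, and `|∑ w_j |D(j)| ^ 2 e ^ (ijx)|` is bounded by
`∑ w_q |∑ n ^ (-iq)| ^ 2 e ^ (iqx)`, which bounds the third moment of `∑ F_j e ^ (ijx)`, and so the trace of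
`O ^ 3`. Choose `L = T ^ (5/7) N ^ (-6/7)`.
-/

set_option autoImplicit false

namespace Pool.Agent.helper16.Reserve.LargeValuesV2

theorem cpow_shift (n : ℕ) (hn : 0 < n) (t T₀ : ℝ) :
    (n : ℂ) ^ (-((T₀ : ℂ) * Complex.I)) * (n : ℂ) ^ (-(((t - T₀ : ℝ) : ℂ) * Complex.I)) =
      (n : ℂ) ^ (-((t : ℂ) * Complex.I)) := by
  rw [← Complex.cpow_add _ _ (by exact_mod_cast hn.ne')]
  congr 1
  push_cast
  ring

theorem norm_cpow_shift (n : ℕ) (hn : 0 < n) (T₀ : ℝ) :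
    ‖(n : ℂ) ^ (-((T₀ : ℂ) * Complex.I))‖ = 1 := by
  rw [← Complex.ofReal_natCast, Complex.norm_cpow_eq_rpow_re_of_pos (by exact_mod_cast hn)]
  simp

theorem result (ε : ℝ) (hε : 0 < ε) : ∃ C : ℝ, 0 < C ∧
    ∀ (T T₀ : ℝ) (N : ℕ) (a : ℕ → ℂ) (V G : ℝ) (W : Finset ℝ), 1 ≤ T → 1 ≤ N → (N : ℝ) ≤ T → 0 < V →
    (∀ n ∈ Finset.Ioc N (2 * N), ‖a n‖ ≤ 1) → G = ∑ n ∈ Finset.Ioc N (2 * N), ‖a n‖ ^ 2 →
    (∀ t ∈ W, T₀ ≤ t ∧ t ≤ T₀ + T) → (∀ t ∈ W, ∀ s ∈ W, t ≠ s → 1 ≤ |t - s|) →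
    (∀ t ∈ W, V ≤ ‖∑ n ∈ Finset.Ioc N (2 * N), a n * (n : ℂ) ^ (-((t : ℂ) * Complex.I))‖) →
    (W.card : ℝ) ≤ C * T ^ ε * (if C * T ^ ε * (N : ℝ) ^ (1 / 2 : ℝ) * G ≤ V ^ 2
      then N * G / V ^ 2 + T ^ (1 / 2 : ℝ) * N * G ^ 2 / V ^ 4
      else (N : ℝ) ^ 2 / V ^ 2 + (T ^ (1 / 2 : ℝ) * (N : ℝ) ^ 3 +
        T ^ (6 / 7 : ℝ) * (N : ℝ) ^ (18 / 7 : ℝ) + T * (N : ℝ) ^ 2) / V ^ 4) := by
  obtain ⟨C₁, hC₁, h₁⟩ := Pool.Agent.LW.l_fin ε hε
  obtain ⟨C₂, hC₂, h₂⟩ := Pool.Agent.LV.large_values ε hε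
  refine ⟨C₁ + C₂, by positivity, ?_⟩
  intro T T₀ N a V G W hT hN hNT hV ha hG hW hsep hval
  have hT0 : 0 < T := by linarith
  have hTe : 0 < T ^ ε := Real.rpow_pos_of_pos hT0 _
  have hN0 : (0 : ℝ) ≤ N := Nat.cast_nonneg _
  have hG0 : 0 ≤ G := by
    rw [hG]
    exact Finset.sum_nonneg fun n _ => by positivity
  split_ifs with hc
  · -- large `V`
    have hinj : Function.Injective (fun t : ℝ => t - T₀) := fun x y h => by
      have h' : x - T₀ = y - T₀ := h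
      linarith
    have hb : ∀ n ∈ Finset.Ioc N (2 * N), ‖a n * (n : ℂ) ^ (-((T₀ : ℂ) * Complex.I))‖ = ‖a n‖ := by
      intro n hn
      rw [norm_mul, norm_cpow_shift n (by have := (Finset.mem_Ioc.1 hn).1; omega), mul_one]
    have hGb : ∑ n ∈ Finset.Ioc N (2 * N), ‖a n * (n : ℂ) ^ (-((T₀ : ℂ) * Complex.I))‖ ^ 2 = G := by
      rw [hG]
      exact Finset.sum_congr rfl fun n hn => by rw [hb n hn]
    have key := h₂ T N (fun n => a n * (n : ℂ) ^ (-((T₀ : ℂ) * Complex.I))) V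
      (W.image fun t => t - T₀) hT hN hNT hV ?_ ?_ ?_ ?_
    · rw [Finset.card_image_of_injective _ hinj] at key
      simp only [hGb] at key
      refine key.trans ?_
      have hpos : 0 ≤ N * G / V ^ 2 + T ^ (1 / 2 : ℝ) * N * G ^ 2 / V ^ 4 := by positivity
      have : C₂ * T ^ ε ≤ (C₁ + C₂) * T ^ ε := mul_le_mul_of_nonneg_right (by linarith) hTe.le
      exact mul_le_mul_of_nonneg_right this hpos
    · intro t ht
      obtain ⟨s, hs, rfl⟩ := Finset.mem_image.1 ht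
      have := hW s hs
      constructor <;> linarith [this.1, this.2]
    · intro t ht s hs hts
      obtain ⟨t', ht', rfl⟩ := Finset.mem_image.1 ht
      obtain ⟨s', hs', rfl⟩ := Finset.mem_image.1 hs
      have h3 : t' - T₀ - (s' - T₀) = t' - s' := by ring
      rw [h3]
      exact hsep t' ht' s' hs' fun h => hts (by rw [h])
    · intro t ht
      obtain ⟨s, hs, rfl⟩ := Finset.mem_image.1 ht
      refine (hval s hs).trans (le_of_eq ?_)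
      congr 1
      refine Finset.sum_congr rfl fun n hn => ?_
      have hn0 : 0 < n := by have := (Finset.mem_Ioc.1 hn).1; omega
      rw [mul_assoc, cpow_shift n hn0]
    · simp only [hGb]
      refine le_trans ?_ hc
      have hpos : 0 ≤ T ^ ε * (N : ℝ) ^ (1 / 2 : ℝ) * G := by positivity
      have : C₂ * (T ^ ε * (N : ℝ) ^ (1 / 2 : ℝ) * G) ≤ (C₁ + C₂) * (T ^ ε * (N : ℝ) ^ (1 / 2 : ℝ) * G) :=
        mul_le_mul_of_nonneg_right (by linarith) hpos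
      linarith
  · refine (h₁ T T₀ N a V W hT hN hNT hV ha hW hsep hval).trans ?_
    have hpos : 0 ≤ (N : ℝ) ^ 2 / V ^ 2 + (T ^ (1 / 2 : ℝ) * (N : ℝ) ^ 3 +
        T ^ (6 / 7 : ℝ) * (N : ℝ) ^ (18 / 7 : ℝ) + T * (N : ℝ) ^ 2) / V ^ 4 := by positivity
    have : C₁ * T ^ ε ≤ (C₁ + C₂) * T ^ ε := mul_le_mul_of_nonneg_right (by linarith) hTe.le
    exact mul_le_mul_of_nonneg_right this hpos

end Pool.Agent.helper16.Reserve.LargeValuesV2
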