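import Pool.Agent.helper16.SCV.All

/-!
# Primes `8 n ^ 2 - b` with a small constant term `b ≤ B`: almost all `n`, `B = n ^ 0.677`
-/

namespace Pool.Agent.helper16.Reserve.SmallConstantTermsV2

open Finset

/-- the `b` in `[1, B]` with `8 n ^ 2 - b` prime -/
def constFor (B n : ℕ) : Finset ℕ := (Icc 1 B).filter fun b => (8 * n ^ 2 - b).Prime

/-- the primes `p` in `(x, 2x]` with `8 p ^ 2 - b` prime -/
def primesFor (x b : ℕ) : Finset ℕ := (Ioc x (2 * x)).filter fun p => p.Prime ∧ (8 * p ^ 2 - b).Prime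

/-- 1. For all `κ > 0` and all `A`, all large `x` and all `B` with `x ^ 0.677 ≤ B ≤ x ^ 2`: for all but at most
`x / log ^ A x` of the integers `n` in `(x, 2x]` (so for almost all primes `n = p`) the number of the `b ≤ B` with
`8 n ^ 2 - b` prime is `(1 ± κ) B / (2 log x)`.

2. For all `ε, κ > 0`, all large `x` and all `B` with `x ^ (2 / 3 + ε) ≤ B ≤ x ^ 2`: the number of the pairs `(p, b)`, `p` prime
in `(x, 2x]`, `b ≤ B`, with `8 p ^ 2 - b` prime is `(1 ± κ) B x / (2 log ^ 2 x)`; and at least `c B` of the `b ≤ B`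
have at least `c x / log ^ 2 x` primes `p` in `(x, 2x]` with `8 p ^ 2 - b` prime, with `c = c(ε) > 0`. -/
theorem result :
    (∀ (κ : ℝ) (A : ℕ), 0 < κ → ∃ x₀ : ℕ, ∀ x : ℕ, x₀ ≤ x → ∀ B : ℕ, (x : ℝ) ^ (677 / 1000 : ℝ) ≤ B → B ≤ x ^ 2 →
      (#((Ioc x (2 * x)).filter fun n =>
        κ * (B / (2 * Real.log x)) < |(#(constFor B n) : ℝ) - B / (2 * Real.log x)|) : ℝ) ≤ x / Real.log x ^ A) ∧
    ∀ ε : ℝ, 0 < ε →
      (∀ κ : ℝ, 0 < κ → ∃ x₀ : ℕ, ∀ x : ℕ, x₀ ≤ x → ∀ B : ℕ, (x : ℝ) ^ (2 / 3 + ε) ≤ B → B ≤ x ^ 2 →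
        |(∑ b ∈ Icc 1 B, (#(primesFor x b) : ℝ)) - B * x / (2 * Real.log x ^ 2)| ≤
          κ * (B * x / (2 * Real.log x ^ 2))) ∧
      ∃ (c : ℝ) (x₀ : ℕ), 0 < c ∧ ∀ x : ℕ, x₀ ≤ x → ∀ B : ℕ, (x : ℝ) ^ (2 / 3 + ε) ≤ B → B ≤ x ^ 2 →
        c * B ≤ #((Icc 1 B).filter fun b => c * x / Real.log x ^ 2 ≤ #(primesFor x b)) := by
  refine ⟨fun κ A hκ => ?_, fun ε hε => ⟨fun κ hκ => ?_, ?_⟩⟩
  · obtain ⟨x₀, h⟩ := Pool.Agent.SCV.All.ALM_all κ A hκ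
    exact ⟨x₀, fun x hx B hB hB2 => h x hx B hB hB2⟩
  · obtain ⟨x₀, h⟩ := Pool.Agent.SCT.All.ASY_all ε (κ / 2) hε (half_pos hκ)
    refine ⟨x₀, fun x hx B hB hB2 => ?_⟩
    have h1 := h x hx B hB hB2
    unfold Pool.Agent.SCT.Tot at h1
    push_cast at h1
    refine h1.trans (le_of_eq ?_)
    ring
  · obtain ⟨c, x₀, hc, h1⟩ := Pool.Agent.SCT.All.FIN1_all ε hε
    exact ⟨c, x₀, hc, fun x hx B hB hB2 => h1 x hx B hB hB2⟩

end Pool.Agent.helper16.Reserve.SmallConstantTermsV2
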